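import Mathlib

/-!
# MP_b5e4d4_co: an explicit formula for the number of labeled self-converse digraphs

`s p` is the number of self-converse digraphs on the point set `Fin p`.  The formula is a finite sum
over the nonempty sets `A` of divisors of `p!` and the `|A|`-tuples of permutations of `Fin p`; the
summand of a tuple `σ` is `2 ^ (number of orbits)`, the orbits being those of the ordered pairs of
distinct points under the maps `(u, v) ↦ (σ i v, σ i u)`.
-/

set_option autoImplicit false

open Finset

namespace Pool.Agent.Results.MP_b5e4d4_co.ExplicitFormula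

/-- ordered pairs of distinct points -/
abbrev EO (p : ℕ) : Type := {e : Fin p × Fin p // e.1 ≠ e.2}

/-- the map `(u, v) ↦ (g v, g u)` -/
def conv {p : ℕ} (g : Equiv.Perm (Fin p)) (e : EO p) : EO p :=
  ⟨(g e.1.2, g e.1.1), fun h => e.2 (g.injective h).symm⟩

/-- the map `(u, v) ↦ (g u, g v)` -/
def mv {p : ℕ} (g : Equiv.Perm (Fin p)) (e : EO p) : EO p :=
  ⟨(g e.1.1, g e.1.2), fun h => e.2 (g.injective h)⟩

/-- labeled digraphs of order `p` (no loops, no multiple arcs) -/
def LDigraph (p : ℕ) : Type := {R : Fin p → Fin p → Prop // ∀ i, ¬ R i i}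

/-- self-converse: some permutation of the points reverses all arcs -/
def SelfConverse {p : ℕ} (D : LDigraph p) : Prop :=
  ∃ g : Equiv.Perm (Fin p), ∀ u v, D.1 u v ↔ D.1 (g v) (g u)

/-- number of labeled self-converse digraphs of order `p` -/
noncomputable def s (p : ℕ) : ℕ := Nat.card {D : LDigraph p // SelfConverse D}

/-- the number of orbits of the ordered pairs of distinct points under the maps
`(u, v) ↦ (σ i v, σ i u)` -/
noncomputable def orb {p k : ℕ} (σ : Fin k → Equiv.Perm (Fin p)) : ℕ :=
  Nat.card (Quot (fun e e' : EO p => ∃ i, e' = conv (σ i) e))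

variable {p k : ℕ}

/-- colourings invariant under all the maps of `σ` -/
def Rev (σ : Fin k → Equiv.Perm (Fin p)) : Type :=
  {c : EO p → Bool // ∀ i e, c (conv (σ i) e) = c e}

theorem card_rev (σ : Fin k → Equiv.Perm (Fin p)) : Nat.card (Rev σ) = 2 ^ orb σ := by
  classical
  have e : Rev σ ≃ (Quot (fun e e' : EO p => ∃ i, e' = conv (σ i) e) → Bool) :=
    { toFun := fun c => Quot.lift c.1 (by
        rintro x y ⟨i, rfl⟩
        exact (c.2 i x).symm)
      invFun := fun f => ⟨fun e => f (Quot.mk _ e), by
        intro i e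
        exact congrArg f (Quot.sound ⟨i, rfl⟩).symm⟩
      left_inv := by
        intro c
        rfl
      right_inv := by
        intro f
        funext q
        induction q using Quot.ind
        rfl }
  have : Finite (Quot (fun e e' : EO p => ∃ i, e' = conv (σ i) e)) := Quot.finite _
  rw [Nat.card_congr e, Nat.card_fun]
  simp [orb]

/-- the permutations reversing `c` -/
def Anti (c : EO p → Bool) : Type :=
  {g : Equiv.Perm (Fin p) // ∀ e, c (conv g e) = c e}

/-- the stabiliser of a colouring -/
def stab (c : EO p → Bool) : Subgroup (Equiv.Perm (Fin p)) where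
  carrier := {g | ∀ e, c (mv g e) = c e}
  mul_mem' := by
    intro a b ha hb e
    have h1 : mv (a * b) e = mv a (mv b e) := rfl
    rw [h1, ha, hb]
  one_mem' := by intro e; rfl
  inv_mem' := by
    intro a ha e
    have h1 : mv a (mv a⁻¹ e) = e := by
      apply Subtype.ext
      simp [mv]
    have := ha (mv a⁻¹ e)
    rw [h1] at this
    exact this.symm

theorem card_anti (c : EO p → Bool) :
    Nat.card (Anti c) = 0 ∨ Nat.card (Anti c) ∈ (p.factorial).divisors := by
  classical
  by_cases h : Nonempty (Anti c)
  · right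
    obtain ⟨g0⟩ := h
    have e : Anti c ≃ stab c :=
      { toFun := fun g => ⟨g0.1⁻¹ * g.1, by
          intro e
          have h3 := g0.2 (conv (g0.1⁻¹ * g.1) (conv 1 e))
          have a1 : conv g0.1 (conv (g0.1⁻¹ * g.1) (conv 1 e)) = conv g.1 e := by
            apply Subtype.ext
            simp [conv]
          have a2 : conv (g0.1⁻¹ * g.1) (conv 1 e) = mv (g0.1⁻¹ * g.1) e := by
            apply Subtype.ext
            simp [conv, mv]
          rw [a1, a2, g.2 e] at h3
          exact h3.symm⟩
        invFun := fun h => ⟨g0.1 * h.1, by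
          intro e
          have a1 : conv (g0.1 * h.1) e = conv g0.1 (mv h.1 e) := by
            apply Subtype.ext
            simp [conv, mv]
          rw [a1, g0.2, h.2 e]⟩
        left_inv := by intro g; apply Subtype.ext; simp
        right_inv := by intro g; apply Subtype.ext; simp }
    have h1 := Subgroup.card_subgroup_dvd_card (stab c)
    rw [Nat.card_congr e, Nat.mem_divisors]
    refine ⟨?_, Nat.factorial_ne_zero p⟩
    rwa [Nat.card_eq_fintype_card (α := Equiv.Perm (Fin p)), Fintype.card_perm,
      Fintype.card_fin] at h1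
  · left
    rw [Nat.card_eq_zero]
    left
    exact not_nonempty_iff.mp h

theorem sum_pow (k : ℕ) :
    ∑ c : EO p → Bool, (Nat.card (Anti c)) ^ k =
      ∑ σ : Fin k → Equiv.Perm (Fin p), 2 ^ orb σ := by
  classical
  have h1 : ∀ c : EO p → Bool, (Nat.card (Anti c)) ^ k =
      ∑ σ : Fin k → Equiv.Perm (Fin p), if (∀ i e, c (conv (σ i) e) = c e) then 1 else 0 := by
    intro c
    have e : (Fin k → Anti c) ≃
        {σ : Fin k → Equiv.Perm (Fin p) // ∀ i e, c (conv (σ i) e) = c e} :=
      { toFun := fun f => ⟨fun i => (f i).1, fun i => (f i).2⟩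
        invFun := fun σ i => ⟨σ.1 i, σ.2 i⟩
        left_inv := fun f => rfl
        right_inv := fun f => rfl }
    have h2 : Nat.card (Fin k → Anti c) = (Nat.card (Anti c)) ^ k := by
      rw [Nat.card_fun]; simp
    rw [← h2, Nat.card_congr e, Nat.card_eq_fintype_card, Fintype.card_subtype, Finset.card_filter]
  simp_rw [h1]
  rw [Finset.sum_comm]
  apply Finset.sum_congr rfl
  intro σ _
  rw [← card_rev σ]
  unfold Rev
  rw [Nat.card_eq_fintype_card, Fintype.card_subtype, Finset.card_filter]

open Classical in
/-- a digraph as a two-colouring of the ordered pairs -/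
noncomputable def eD (p : ℕ) : LDigraph p ≃ (EO p → Bool) where
  toFun := fun D e => decide (D.1 e.1.1 e.1.2)
  invFun := fun c => ⟨fun i j => ∃ h : i ≠ j, c ⟨(i, j), h⟩ = true, fun i h => h.1 rfl⟩
  left_inv := by
    intro D
    apply Subtype.ext
    funext i j
    apply propext
    constructor
    · rintro ⟨h, hc⟩
      simpa using hc
    · intro h
      exact ⟨fun hij => D.2 i (by rw [← hij] at h; exact h), by simpa using h⟩
  right_inv := by
    intro c
    funext e
    obtain ⟨⟨a, b⟩, he⟩ := e
    rcases hc : c ⟨(a, b), he⟩ with _ | _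
    · simp [hc]
    · have : a ≠ b := he
      simp [hc, this]

theorem s_card (p : ℕ) :
    s p = Nat.card {c : EO p → Bool // Nonempty (Anti c)} := by
  classical
  unfold s
  refine Nat.card_congr (Equiv.subtypeEquiv (eD p) ?_)
  intro D
  constructor
  · rintro ⟨g, hg⟩
    refine ⟨⟨g, ?_⟩⟩
    rintro ⟨⟨a, b⟩, hab⟩
    change decide (D.1 (g b) (g a)) = decide (D.1 a b)
    exact decide_eq_decide.mpr (hg a b).symm
  · rintro ⟨g, hg⟩
    refine ⟨g, ?_⟩
    intro a b
    by_cases hab : a = b
    · subst hab
      exact ⟨fun h => absurd h (D.2 a), fun h => absurd h (D.2 (g a))⟩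
    · have h1 : decide (D.1 (g b) (g a)) = decide (D.1 a b) := hg ⟨(a, b), hab⟩
      exact (decide_eq_decide.mp h1).symm

theorem formula (p : ℕ) :
    (s p : ℚ) = ∑ A ∈ (p.factorial).divisors.powerset.erase ∅,
      ((-1) ^ (A.card + 1) / ∏ d ∈ A, (d : ℚ)) *
        ∑ σ : Fin A.card → Equiv.Perm (Fin p), (2 : ℚ) ^ orb σ := by
  classical
  have h0 : ∀ c : EO p → Bool, (if Nonempty (Anti c) then (1 : ℚ) else 0) =
      ∑ A ∈ (p.factorial).divisors.powerset.erase ∅,
        ((-1) ^ (A.card + 1) / ∏ d ∈ A, (d : ℚ)) * (Nat.card (Anti c) : ℚ) ^ A.card := by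
    intro c
    set N : ℚ := (Nat.card (Anti c) : ℚ) with hN
    have hprod : ∏ d ∈ (p.factorial).divisors, (1 - N / (d : ℚ)) =
        ∑ A ∈ (p.factorial).divisors.powerset, ((-1) ^ A.card / ∏ d ∈ A, (d : ℚ)) * N ^ A.card := by
      rw [Finset.prod_sub]
      apply Finset.sum_congr rfl
      intro A _
      rw [Finset.prod_const_one, Finset.prod_div_distrib, Finset.prod_const]
      ring
    have hsum : ∑ A ∈ (p.factorial).divisors.powerset.erase ∅,
        ((-1) ^ (A.card + 1) / ∏ d ∈ A, (d : ℚ)) * N ^ A.card =
        1 - ∏ d ∈ (p.factorial).divisors, (1 - N / (d : ℚ)) := by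
      rw [hprod, ← Finset.add_sum_erase _ _ (Finset.empty_mem_powerset _)]
      simp only [Finset.card_empty, pow_zero, Finset.prod_empty, div_one, mul_one]
      rw [sub_add_eq_sub_sub, sub_self, zero_sub, ← Finset.sum_neg_distrib]
      apply Finset.sum_congr rfl
      intro A _
      rw [pow_succ]
      ring
    rw [hsum]
    rcases card_anti c with hz | hd
    · have hne : ¬ Nonempty (Anti c) := by
        rintro ⟨g⟩
        rw [Nat.card_eq_zero] at hz
        rcases hz with hz | hz
        · exact hz.false g
        · have : Finite (Anti c) := by unfold Anti; infer_instance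
          exact not_finite (Anti c)
      have hN0 : N = 0 := by rw [hN, hz]; simp
      rw [if_neg hne, hN0]
      simp
    · have hpos : Nat.card (Anti c) ≠ 0 := (Nat.pos_of_mem_divisors hd).ne'
      have hex : Nonempty (Anti c) := by
        by_contra hne
        apply hpos
        rw [Nat.card_eq_zero]
        left
        exact not_nonempty_iff.mp hne
      rw [if_pos hex, Finset.prod_eq_zero hd]
      · simp
      · rw [hN, div_self (by exact_mod_cast hpos), sub_self]
  have h1 : (s p : ℚ) = ∑ c : EO p → Bool, (if Nonempty (Anti c) then (1 : ℚ) else 0) := by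
    rw [s_card, Nat.card_eq_fintype_card, Fintype.card_subtype, Finset.card_filter]
    push_cast
    rfl
  rw [h1]
  simp_rw [h0]
  rw [Finset.sum_comm]
  apply Finset.sum_congr rfl
  intro A _
  rw [← Finset.mul_sum]
  congr 1
  have := sum_pow (p := p) A.card
  exact_mod_cast this

/-- **An explicit formula** for the number `s p` of labeled self-converse digraphs of order `p`, for
every `p`: with `e_k` the elementary symmetric polynomial of degree `k` in the reciprocals of the
divisors of `p!`, and `T_k` the sum of `2 ^ (number of orbits)` over all `k`-tuples of permutations,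
`s p = e_1 T_1 - e_2 T_2 + e_3 T_3 - ...`. -/
theorem result (p : ℕ) :
    (s p : ℚ) = ∑ k ∈ Finset.Icc 1 (p.factorial).divisors.card,
      (-1) ^ (k + 1) * (∑ A ∈ (p.factorial).divisors.powersetCard k, ∏ d ∈ A, (1 / d : ℚ)) *
        ∑ σ : Fin k → Equiv.Perm (Fin p), (2 : ℚ) ^ orb σ := by
  classical
  set n := (p.factorial).divisors.card with hn
  set F : Finset ℕ → ℚ := fun A => ((-1) ^ (A.card + 1) / ∏ d ∈ A, (d : ℚ)) *
        ∑ σ : Fin A.card → Equiv.Perm (Fin p), (2 : ℚ) ^ orb σ with hF
  have h1 : ∑ A ∈ (p.factorial).divisors.powerset.erase ∅, F A =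
      ∑ k ∈ Finset.Icc 1 n, ∑ A ∈ (p.factorial).divisors.powersetCard k, F A := by
    have h2 := Finset.sum_powerset (p.factorial).divisors F
    rw [← Finset.add_sum_erase _ _ (Finset.empty_mem_powerset _), ← hn, Finset.range_eq_Ico,
      Finset.sum_eq_sum_Ico_succ_bot (by omega)] at h2
    rw [Finset.powersetCard_zero, Finset.sum_singleton] at h2
    have h3 := add_left_cancel h2
    rw [h3]
    rfl
  rw [formula p]
  change ∑ A ∈ (p.factorial).divisors.powerset.erase ∅, F A = _
  rw [h1]
  apply Finset.sum_congr rfl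
  intro k _
  have h4 : ∀ A ∈ (p.factorial).divisors.powersetCard k, F A =
      ((-1) ^ (k + 1) * ∏ d ∈ A, (1 / d : ℚ)) *
        ∑ σ : Fin k → Equiv.Perm (Fin p), (2 : ℚ) ^ orb σ := by
    intro A hA
    have hk : A.card = k := (Finset.mem_powersetCard.mp hA).2
    subst hk
    rw [hF]
    simp only [one_div, Finset.prod_inv_distrib]
    rw [div_eq_mul_inv]
  rw [Finset.sum_congr rfl h4, ← Finset.sum_mul, ← Finset.mul_sum]

end Pool.Agent.Results.MP_b5e4d4_co.ExplicitFormula
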